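import Pool.Agent.OddParity.Check

set_option autoImplicit false

/-!
# Two odd integers with an odd number of prime factors: the small `k`

A pair is an odd `c` with `Ω(c)` even and `Ω(c + 2)` odd. If `c < 2 k < c'` for two pairs and
`(c' - c)² ≤ 2 c + 2` then the interval `((2k-1)², (2k+1)²)` contains two odd integers with an odd
number of prime factors: one of `c v`, `(c + 2) v` with `v = 4 k - c`, and one of `c' v'`,
`(c' + 2) v'` with `v' = 4 k - c'`.
-/

namespace Pool.Agent.SQ.H66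

open ArithmeticFunction Pool.Agent.OddParity

/-- `n` is odd, in `((2k-1)², (2k+1)²)`, and has an odd number of prime factors. -/
def Hit (k n : ℕ) : Prop :=
  Odd n ∧ (2 * k - 1) ^ 2 < n ∧ n < (2 * k + 1) ^ 2 ∧ Odd (cardFactors n)

/-- At least two such `n`. -/
def Two (k : ℕ) : Prop := ∃ n m : ℕ, n < m ∧ Hit k n ∧ Hit k m

/-- A pair: `c` odd, `Ω(c)` even and `Ω(c + 2)` odd. -/
def IsPair (c : ℕ) : Prop := Odd c ∧ Even (cardFactors c) ∧ Odd (cardFactors (c + 2))

lemma two_of_ne {k n m : ℕ} (hnm : n ≠ m) (hn : Hit k n) (hm : Hit k m) : Two k := by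
  rcases lt_or_gt_of_ne hnm with h | h
  · exact ⟨n, m, h, hn, hm⟩
  · exact ⟨m, n, h, hm, hn⟩

lemma odd_card_mul {x y : ℕ} (hx : x ≠ 0) (hy : y ≠ 0) :
    Odd (cardFactors (x * y)) ↔ (Odd (cardFactors x) ↔ Even (cardFactors y)) := by
  rw [cardFactors_mul hx hy, Nat.odd_add]

/-- Two pairs on the two sides of `2 k`. -/
theorem two_of_pairs {k c c' : ℕ} (hc : IsPair c) (hc' : IsPair c') (h1 : c < 2 * k)
    (h2 : 2 * k < c') (h3 : (c' - c) * (c' - c) ≤ 2 * c + 2) : Two k := by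
  obtain ⟨co, ce, cp⟩ := hc
  obtain ⟨co', ce', cp'⟩ := hc'
  obtain ⟨x, hx⟩ := co
  obtain ⟨x', hx'⟩ := co'
  -- a = 2 k - c = 2 s + 1, b = c' - 2 k = 2 t + 1
  obtain ⟨s, hs⟩ : ∃ s, 2 * k = c + (2 * s + 1) := ⟨k - x - 1, by omega⟩
  obtain ⟨t, ht⟩ : ∃ t, c' = 2 * k + (2 * t + 1) := ⟨x' - k, by omega⟩
  have hd : c' - c = 2 * (s + t + 1) := by omega
  rw [hd] at h3
  have e1 : (2 * s + 2) * (2 * s + 2) ≤ 2 * c + 2 :=
    le_trans (Nat.mul_le_mul (by omega) (by omega)) h3
  have e2 : (2 * t + 2) * (2 * t + 2) ≤ 2 * c + 2 :=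
    le_trans (Nat.mul_le_mul (by omega) (by omega)) h3
  have e3 : (2 * s + 2) * (2 * s + 2) = (2 * s + 1) ^ 2 + (4 * s + 3) := by ring
  have e4 : (2 * s + 2) * (2 * s + 2) = (2 * s) ^ 2 + (8 * s + 4) := by ring
  have e5 : (2 * t + 2) * (2 * t + 2) = (2 * t + 1) ^ 2 + (4 * t + 3) := by ring
  have e6 : (2 * t + 2) * (2 * t + 2) = (2 * t + 2) ^ 2 := by ring
  have hbt : 2 * t + 1 < 2 * k := by
    have e7 : 2 * (2 * t + 2) ≤ (2 * t + 2) * (2 * t + 2) := Nat.mul_le_mul (by omega) le_rfl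
    omega
  obtain ⟨v, hv⟩ : ∃ v, 2 * k = v + (2 * t + 1) := ⟨2 * k - (2 * t + 1), by omega⟩
  -- the partners
  have hcpos : c ≠ 0 := by omega
  have hcpos' : c' ≠ 0 := by omega
  have hvpos : v ≠ 0 := by omega
  have hwpos : c + 2 * (2 * s + 1) ≠ 0 := by omega
  have hvo : Odd v := ⟨k - t - 1, by omega⟩
  have hwo : Odd (c + 2 * (2 * s + 1)) := ⟨x + (2 * s + 1), by omega⟩
  have hco : Odd c := ⟨x, hx⟩
  have hco' : Odd c' := ⟨x', hx'⟩
  have hco2 : Odd (c + 2) := ⟨x + 1, by omega⟩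
  have hco2' : Odd (c' + 2) := ⟨x' + 1, by omega⟩
  have hK : (2 * k - 1) ^ 2 + 4 * k = 4 * k ^ 2 + 1 := by
    obtain ⟨m, rfl⟩ : ∃ m, k = m + 1 := ⟨k - 1, by omega⟩
    have e : 2 * (m + 1) - 1 = 2 * m + 1 := by omega
    rw [e]; ring
  have hKp : (2 * k + 1) ^ 2 = 4 * k ^ 2 + 4 * k + 1 := by ring
  -- the four products
  have p1 : c * (c + 2 * (2 * s + 1)) + (2 * s + 1) ^ 2 = 4 * k ^ 2 := by
    have : 4 * k ^ 2 = (2 * k) ^ 2 := by ring
    rw [this, hs]; ring
  have p2 : (c + 2) * (c + 2 * (2 * s + 1)) + (2 * s) ^ 2 = 4 * k ^ 2 + 4 * k + 1 := by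
    have : 4 * k ^ 2 + 4 * k + 1 = (2 * k + 1) ^ 2 := by ring
    rw [this, hs]; ring
  have p3 : c' * v + (2 * t + 1) ^ 2 = 4 * k ^ 2 := by
    have : 4 * k ^ 2 = (2 * k) ^ 2 := by ring
    rw [this, ht, hv]; ring
  have p4 : (c' + 2) * v + (2 * t + 2) ^ 2 = 4 * k ^ 2 + 4 * k + 1 := by
    have : 4 * k ^ 2 + 4 * k + 1 = (2 * k + 1) ^ 2 := by ring
    rw [this, ht, hv]; ring
  have bs : (2 * s + 1) ^ 2 + 1 < 4 * k := by omega
  have bt : (2 * t + 1) ^ 2 + 1 < 4 * k := by omega
  have bs2 : (2 * s) ^ 2 ≤ 4 * k := by omega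
  have bt2 : (2 * t + 2) ^ 2 ≤ 4 * k := by omega
  have hit1 : Odd (cardFactors (c + 2 * (2 * s + 1))) → Hit k (c * (c + 2 * (2 * s + 1))) := by
    intro h
    have hs0 : 0 < (2 * s + 1) ^ 2 := by positivity
    refine ⟨hco.mul hwo, by omega, by omega, ?_⟩
    rw [odd_card_mul hcpos hwpos]
    constructor
    · intro h5; exact absurd ce (Nat.not_even_iff_odd.mpr h5)
    · intro h5; exact absurd h (Nat.not_odd_iff_even.mpr h5)
  have hit2 : Even (cardFactors (c + 2 * (2 * s + 1))) →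
      Hit k ((c + 2) * (c + 2 * (2 * s + 1))) := by
    intro h
    have hs0 : 0 < (2 * s) ^ 2 := by
      by_contra hcon
      have h6 : s = 0 := by
        by_contra h7
        apply hcon
        positivity
      subst h6
      exact absurd cp (Nat.not_odd_iff_even.mpr h)
    refine ⟨hco2.mul hwo, by omega, by omega, ?_⟩
    rw [odd_card_mul (by omega) hwpos]
    exact ⟨fun _ => h, fun _ => cp⟩
  have hit3 : Odd (cardFactors v) → Hit k (c' * v) := by
    intro h
    have ht0 : 0 < (2 * t + 1) ^ 2 := by positivity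
    refine ⟨hco'.mul hvo, by omega, by omega, ?_⟩
    rw [odd_card_mul hcpos' hvpos]
    constructor
    · intro h5; exact absurd ce' (Nat.not_even_iff_odd.mpr h5)
    · intro h5; exact absurd h (Nat.not_odd_iff_even.mpr h5)
  have hit4 : Even (cardFactors v) → Hit k ((c' + 2) * v) := by
    intro h
    have ht0 : 0 < (2 * t + 2) ^ 2 := by positivity
    refine ⟨hco2'.mul hvo, by omega, by omega, ?_⟩
    rw [odd_card_mul (by omega) hvpos]
    exact ⟨fun _ => h, fun _ => cp'⟩
  rcases Nat.even_or_odd (cardFactors (c + 2 * (2 * s + 1))) with hw | hw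
  · rcases Nat.even_or_odd (cardFactors v) with hv' | hv'
    · refine two_of_ne ?_ (hit2 hw) (hit4 hv')
      intro he
      have h6 : (2 * s) ^ 2 = (2 * t + 2) ^ 2 := by omega
      have h7 : 2 * s = 2 * t + 2 := by
        exact Nat.pow_left_injective (by norm_num : (2 : ℕ) ≠ 0) h6
      have h8 : c + 2 * (2 * s + 1) = c' + 2 := by omega
      rw [h8] at hw
      exact absurd cp' (Nat.not_odd_iff_even.mpr hw)
    · refine two_of_ne ?_ (hit2 hw) (hit3 hv')
      intro he
      have h6 : (2 * t + 1) ^ 2 ≥ 1 := Nat.one_le_pow _ _ (by omega)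
      omega
  · rcases Nat.even_or_odd (cardFactors v) with hv' | hv'
    · refine two_of_ne ?_ (hit1 hw) (hit4 hv')
      intro he
      have h6 : (2 * s + 1) ^ 2 ≥ 1 := Nat.one_le_pow _ _ (by omega)
      omega
    · refine two_of_ne ?_ (hit1 hw) (hit3 hv')
      intro he
      have h6 : (2 * s + 1) ^ 2 = (2 * t + 1) ^ 2 := by omega
      have h7 : 2 * s + 1 = 2 * t + 1 :=
        Nat.pow_left_injective (by norm_num : (2 : ℕ) ≠ 0) h6
      have h8 : c + 2 * (2 * s + 1) = c' := by omega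
      rw [h8] at hw
      exact absurd ce' (Nat.not_even_iff_odd.mpr hw)

/-- The test of a pair. -/
def tst (x : ℕ) : Bool :=
  (x % 2 == 1) && ((om 700 3 x == some false) && (om 700 3 (x + 2) == some true))

lemma tst_spec {x : ℕ} (h : tst x = true) : IsPair x := by
  unfold tst at h
  rw [Bool.and_eq_true, Bool.and_eq_true] at h
  obtain ⟨h1, h2, h3⟩ := h
  have h1' : x % 2 = 1 := by simpa using h1
  have h2' : om 700 3 x = some false := by simpa using h2
  have h3' : om 700 3 (x + 2) = some true := by simpa using h3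
  have ho : Odd x := Nat.odd_iff.mpr h1'
  have ho2 : Odd (x + 2) := ho.add_even even_two
  refine ⟨ho, ?_, ?_⟩
  · have := om_spec (by omega) ho h2'
    rw [← Nat.not_odd_iff_even]
    intro h4
    simpa using this.mpr h4
  · have := om_spec (by omega) ho2 h3'
    exact this.mp rfl

/-- The check of a chain of pairs. -/
def chain : ℕ → List ℕ → Bool
  | _, [] => true
  | c, d :: l => decide (c < d) && (decide ((d - c) * (d - c) ≤ 2 * c + 2) &&
      (tst d && chain d l))

lemma chain_spec : ∀ (l : List ℕ) (c : ℕ), IsPair c → chain c l = true →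
    ∀ k, c < 2 * k → 2 * k ≤ (l.getLast?).getD c → Two k := by
  intro l
  induction l with
  | nil => intro c _ _ k h1 h2; simp at h2; omega
  | cons d l ih =>
    intro c hc h k h1 h2
    rw [chain, Bool.and_eq_true, Bool.and_eq_true, Bool.and_eq_true, decide_eq_true_eq,
      decide_eq_true_eq] at h
    obtain ⟨h3, h4, h5, h6⟩ := h
    have hd := tst_spec h5
    rcases lt_trichotomy (2 * k) d with h7 | h7 | h7
    · exact two_of_pairs hc hd h1 h7 h4
    · exfalso
      have := hd.1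
      rw [Nat.odd_iff] at this
      omega
    · refine ih d hd h6 k h7 ?_
      rw [List.getLast?_cons] at h2
      simpa using h2

/-- The check of the tiny `k`: two integers for each `k`. -/
def tiny : ℕ → List (ℕ × ℕ) → Bool
  | _, [] => true
  | k, (n, m) :: l =>
    decide ((2 * k - 1) ^ 2 < n ∧ n < m ∧ m < (2 * k + 1) ^ 2 ∧ n % 2 = 1 ∧ m % 2 = 1) &&
      ((om 700 3 n == some true) && ((om 700 3 m == some true) && tiny (k + 1) l))

lemma tiny_spec : ∀ (l : List (ℕ × ℕ)) (k0 : ℕ), tiny k0 l = true →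
    ∀ k, k0 ≤ k → k < k0 + l.length → Two k := by
  intro l
  induction l with
  | nil => intro k0 _ k h1 h2; simp at h2; omega
  | cons a l ih =>
    obtain ⟨n, m⟩ := a
    intro k0 h k h1 h2
    rw [tiny, Bool.and_eq_true, Bool.and_eq_true, Bool.and_eq_true, decide_eq_true_eq] at h
    obtain ⟨⟨h3, h4, h5, h6, h7⟩, h8, h9, h10⟩ := h
    rcases eq_or_lt_of_le h1 with h11 | h11
    · subst h11
      have h8' : om 700 3 n = some true := by simpa using h8
      have h9' : om 700 3 m = some true := by simpa using h9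
      have hn : Odd n := Nat.odd_iff.mpr h6
      have hm : Odd m := Nat.odd_iff.mpr h7
      exact ⟨n, m, h4, ⟨hn, h3, by omega, (om_spec (by omega) hn h8').mp rfl⟩,
        ⟨hm, by omega, h5, (om_spec (by omega) hm h9').mp rfl⟩⟩
    · refine ih (k0 + 1) h10 k (by omega) ?_
      simp only [List.length_cons] at h2
      omega

end Pool.Agent.SQ.H66
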