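import Pool.Agent.Helper66_SQ.Tiny
import Pool.Agent.Helper66_SQ.Chain1
import Pool.Agent.Helper66_SQ.Chain2
import Pool.Agent.Helper66_SQ.Chain3
import Pool.Agent.Helper66_SQ.Chain4
import Pool.Agent.Helper66_SQ.Chain5
import Pool.Agent.Helper66_SQ.Chain6
import Pool.Agent.Helper66_SQ.Chain7
import Pool.Agent.Helper66_SQ.Chain8
import Pool.Agent.Helper66_SQ.Chain9
import Pool.Agent.Helper66_SQ.Chain10
import Pool.Agent.Helper66_SQ.Chain11

set_option autoImplicit false

/-!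
# Two odd integers with an odd number of prime factors in `((2k-1)², (2k+1)²)`, `2 k < 144000000`
-/

namespace Pool.Agent.SQ.H66

open ArithmeticFunction

theorem two_small (k : ℕ) (hk : 1 ≤ k) (h : 2 * k < 144000000) : Two k := by
  by_cases h0 : k ≤ 261
  · exact two_tiny k hk h0
  by_cases h1 : 2 * k ≤ 1480435
  · exact two_chain1 k (by omega) h1
  by_cases h2 : 2 * k ≤ 5829831
  · exact two_chain2 k (by omega) h2
  by_cases h3 : 2 * k ≤ 13096315
  · exact two_chain3 k (by omega) h3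
  by_cases h4 : 2 * k ≤ 23190573
  · exact two_chain4 k (by omega) h4
  by_cases h5 : 2 * k ≤ 36197887
  · exact two_chain5 k (by omega) h5
  by_cases h6 : 2 * k ≤ 51546157
  · exact two_chain6 k (by omega) h6
  by_cases h7 : 2 * k ≤ 68751365
  · exact two_chain7 k (by omega) h7
  by_cases h8 : 2 * k ≤ 87975529
  · exact two_chain8 k (by omega) h8
  by_cases h9 : 2 * k ≤ 108985223
  · exact two_chain9 k (by omega) h9
  by_cases h10 : 2 * k ≤ 131903187
  · exact two_chain10 k (by omega) h10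
  by_cases h11 : 2 * k ≤ 144009227
  · exact two_chain11 k (by omega) h11
  exfalso
  omega

/-- Two such integers for every `k` with `1 ≤ k` and `2 k < 144000000`. -/
theorem small2 (k : ℕ) (hk : 1 ≤ k) (h : 2 * k < 144000000) :
    ∃ n m : ℕ, n ≠ m ∧ (2 * k - 1) ^ 2 < n ∧ n < (2 * k + 1) ^ 2 ∧ Odd n ∧ Odd (cardFactors n) ∧
      (2 * k - 1) ^ 2 < m ∧ m < (2 * k + 1) ^ 2 ∧ Odd m ∧ Odd (cardFactors m) := by
  obtain ⟨n, m, hnm, ⟨n1, n2, n3, n4⟩, ⟨m1, m2, m3, m4⟩⟩ := two_small k hk h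
  exact ⟨n, m, hnm.ne, n2, n3, n1, n4, m2, m3, m1, m4⟩

end Pool.Agent.SQ.H66
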